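import Mathlib
import Pool.Agent.Y740.G.List

set_option autoImplicit false

/-!
# Bounded height
-/

namespace Pool.Agent.Y740.G

open Real NumberField Height Module Polynomial Pool.Agent.Y740 Pool.Agent.Y740.S ComplexConjugate

variable {p r q : ℕ}

lemma monom_eq' {m t : ℕ} {F : Type*} [Field F] (e : Fin (m + 1) → Fin t → ℕ)
    (y : Fin t → F) (hy : ∀ i, y i ≠ 0) (k : Fin (m + 1)) :
    mon e y k = (mo y (e 0))⁻¹ * mo y (e k) := by
  rw [mon, mo, mo, ← Finset.prod_inv_distrib, ← Finset.prod_mul_distrib]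
  apply Finset.prod_congr rfl
  intro i _
  rw [zpow_sub₀ (hy i), zpow_natCast, zpow_natCast, div_eq_mul_inv, mul_comm]

lemma mo_ne' {t : ℕ} {F : Type*} [Field F] (y : Fin t → F) (hy : ∀ i, y i ≠ 0)
    (u : Fin t → ℕ) : mo y u ≠ 0 :=
  Finset.prod_ne_zero_iff.mpr fun i _ => pow_ne_zero _ (hy i)

/-- Bounded height for the points with many multiplicative relations. -/
theorem heightA {t : ℕ} (hr : 0 < r) (ν : Fin p → Fin r → ℤ)
    (hν : ∀ b : Fin p → ℝ, (fun i => ∑ j, b j * (ν j i : ℝ)) = 0 → b = 0)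
    (a : Fin r → Qb) (ha : Function.Injective a) (g : Fin p → Qb) (hg : ∀ j, g j ≠ 0)
    (hNB : ∀ Ψ : Qb →+* ℂ, NB ν (emb a g Ψ))
    (m : ℕ) (α : Fin (m + 1) → Qb[X]) (hα : ∀ k, α k ≠ 0) (e : Fin (m + 1) → Fin t → ℕ)
    (hSP : SP e) :
    ∃ (S : Set Qb) (B : ℝ), S.Finite ∧
      ∀ (s : Qb) (y : Fin t → Qb), (∀ i, y i ≠ 0) → ∑ k, (α k).eval s * mo y (e k) = 0 →
      (∀ I : Finset (Fin (m + 1)), 2 ≤ I.card → I.card < m →
        ∑ k ∈ I, (α k).eval s * mo y (e k) ≠ 0) →
      HasRelations (crd ν a g s y) (t + 1) →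
      s ∈ S ∨ (NumberField.absLogHeight₁ s ≤ B ∧ ∀ i, NumberField.absLogHeight₁ (y i) ≤ B) := by
  classical
  obtain ⟨W, hW, hWb⟩ := exists_lower (fun j i => (ν j i : ℝ)) fun b hb => hν b (funext hb)
  -- constants
  set H₁ : ℝ := ∑ i, ∑ j, (log 2 + 2 * NumberField.absLogHeight₁ (a i - a j)) with hH₁
  set H₂ : ℝ := ∑ j, NumberField.absLogHeight₁ (a j) with hH₂
  set H₃ : ℝ := ∑ j, NumberField.absLogHeight₁ (g j) with hH₃
  have hl2 : 0 < log 2 := Real.log_pos (by norm_num)
  have hH₁0 : 0 ≤ H₁ := Finset.sum_nonneg fun i _ => Finset.sum_nonneg fun j _ => by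
    have := ht_nonneg (a i - a j); positivity
  have hH₂0 : 0 ≤ H₂ := Finset.sum_nonneg fun j _ => ht_nonneg (a j)
  have hH₃0 : 0 ≤ H₃ := Finset.sum_nonneg fun j _ => ht_nonneg (g j)
  set B₁ : ℝ := H₁ + W * (2 * H₃) + H₂ + log 2 with hB₁
  have hB₁0 : 0 ≤ B₁ := by positivity
  set V : ℝ := ∑ j, ∑ i, ((ν j i).natAbs : ℝ) with hV
  have hV0 : 0 ≤ V := Finset.sum_nonneg fun j _ => Finset.sum_nonneg fun i _ => Nat.cast_nonneg _
  set B₄ : ℝ := B₁ + H₂ + log 2 with hB₄
  have hB₄0 : 0 ≤ B₄ := by positivity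
  set B₂ : ℝ := B₄ + (H₃ + V * B₄) + ∑ i, polBound (α i) B₁ with hB₂
  have hp0 : ∀ i, 0 ≤ polBound (α i) B₁ := fun i => polBound_nonneg _ _ hB₁0
  have hsum0 : 0 ≤ ∑ i, polBound (α i) B₁ := Finset.sum_nonneg fun i _ => hp0 i
  have hB₂0 : 0 ≤ B₂ := by positivity
  -- the field of definition
  obtain ⟨K0, hK0, -, hmem0⟩ := exists_galois
    ((Set.range a ∪ Set.range g) ∪
      ⋃ i, ((fun k => (α i).coeff k) '' (Finset.range ((α i).natDegree + 1) : Set ℕ)))
    (((Set.finite_range a).union (Set.finite_range g)).union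
      (Set.finite_iUnion fun i => (Finset.finite_toSet _).image _))
  let a0 : Fin r → K0 := fun j => ⟨a j, hmem0 _ (Or.inl (Or.inl ⟨j, rfl⟩))⟩
  let g0 : Fin p → K0 := fun j => ⟨g j, hmem0 _ (Or.inl (Or.inr ⟨j, rfl⟩))⟩
  have hlift : ∀ i, ∃ f : K0[X], f.map (algebraMap K0 Qb) = α i := by
    intro i
    apply exists_lift
    intro k hk
    apply hmem0
    right
    rw [Set.mem_iUnion]
    exact ⟨i, k, hk, rfl⟩
  choose α0 hα0 using hlift
  have ha0 : Function.Injective a0 := by
    intro i j hij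
    apply ha
    exact congrArg (fun x : K0 => (x : Qb)) hij
  -- the conjugate data
  set 𝒜 : Finset (Bs p r) := Finset.univ.image (emb a0 g0) with h𝒜
  have h𝒜NB : ∀ δ ∈ 𝒜, NB ν δ := by
    intro δ hδ
    rw [h𝒜, Finset.mem_image] at hδ
    obtain ⟨ψ, -, rfl⟩ := hδ
    obtain ⟨Ψ, hΨ⟩ := exists_ext K0 ψ
    have h1 := hNB Ψ
    have h2 : emb a g Ψ = emb a0 g0 ψ := by
      rw [← hΨ]
      rfl
    rw [h2] at h1
    exact h1
  obtain ⟨D, B', R₀, hB', hR₀, hmain⟩ :=
    point_bound hr ν 𝒜 h𝒜NB B₂ hB₂0 m e hSP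
  have hfin := Pool.Agent.H58W.northcott D B₂
  refine ⟨_ ∪ (Set.range a ∪ ⋃ k, {s | (α k).eval s = 0}), B₂ + B', hfin.union
    ((Set.finite_range a).union (Set.finite_iUnion fun k => ?_)), ?_⟩
  · refine ((α k).roots.toFinset.finite_toSet).subset ?_
    intro s hs
    rw [Finset.mem_coe, Multiset.mem_toFinset, mem_roots (hα k)]
    exact hs
  intro s y hy hVan hnv' hrel
  by_cases hbad : s ∈ Set.range a ∪ ⋃ k, {s | (α k).eval s = 0}
  · left; right; exact hbad
  rw [Set.mem_union, not_or, Set.mem_iUnion] at hbad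
  obtain ⟨hbad1, hbad2⟩ := hbad
  push Not at hbad2
  have hs : ∀ j, s ≠ a j := fun j h => hbad1 ⟨j, h.symm⟩
  have hαs : ∀ k, (α k).eval s ≠ 0 := fun k h => hbad2 k h
  have hnv : ∀ I : Finset (Fin (m + 1)), I.Nonempty → I ≠ Finset.univ →
      ∑ k ∈ I, (α k).eval s * mo y (e k) ≠ 0 := by
    intro I hI hIu h0
    rcases Nat.lt_or_ge I.card 2 with h1 | h1
    · -- a single term
      have hc : I.card = 1 := by
        have := hI.card_pos
        omega
      obtain ⟨i, rfl⟩ := Finset.card_eq_one.mp hc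
      rw [Finset.sum_singleton] at h0
      exact mul_ne_zero (hαs i) (mo_ne' y hy _) h0
    · rcases Nat.lt_or_ge I.card m with h2 | h2
      · exact hnv' I h1 h2 h0
      · -- all but one term
        have hlt : I.card < m + 1 := by
          have := Finset.card_lt_univ_of_notMem (s := I) (x := (Finset.exists_of_ssubset
            (Finset.ssubset_univ_iff.mpr hIu)).choose)
            (Finset.exists_of_ssubset (Finset.ssubset_univ_iff.mpr hIu)).choose_spec.2
          rwa [Fintype.card_fin] at this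
        have hc : Iᶜ.card = 1 := by
          rw [Finset.card_compl, Fintype.card_fin]
          omega
        obtain ⟨i, hi⟩ := Finset.card_eq_one.mp hc
        have h3 := Finset.sum_add_sum_compl I (fun k => (α k).eval s * mo y (e k))
        rw [h0, hi, Finset.sum_singleton, zero_add, hVan] at h3
        exact mul_ne_zero (hαs i) (mo_ne' y hy _) h3
  -- the field
  obtain ⟨K, hK, hG, hle, hmem⟩ := exists_galois_above K0 ({s} ∪ Set.range y)
    ((Set.finite_singleton s).union (Set.finite_range y))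
  have hn := finrank_pos_real (K := K)
  let inc : K0 →+* K := (IntermediateField.inclusion hle : K0 →ₐ[ℚ] K)
  have hinc : ∀ x : K0, ((inc x : K) : Qb) = x := fun _ => rfl
  let aK : Fin r → K := fun j => inc (a0 j)
  let gK : Fin p → K := fun j => inc (g0 j)
  let sK : K := ⟨s, hmem _ (Or.inl rfl)⟩
  let yK : Fin t → K := fun i => ⟨y i, hmem _ (Or.inr ⟨i, rfl⟩)⟩
  have hcomp : (algebraMap K Qb).comp inc = algebraMap K0 Qb := by
    ext x
    rfl
  let A : Fin (m + 1) → K := fun i => (α0 i).eval₂ inc sK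
  have hA : ∀ i, (A i : Qb) = (α i).eval s := by
    intro i
    have h1 : (A i : Qb) = algebraMap K Qb ((α0 i).eval₂ inc sK) := rfl
    rw [h1, Polynomial.hom_eval₂, hcomp, ← hα0 i, Polynomial.eval_map]
    rfl
  have hAsum : ∀ i, A i = ∑ k ∈ Finset.range ((α i).natDegree + 1), inc ((α0 i).coeff k) * sK ^ k := by
    intro i
    have h1 : (α i).natDegree = (α0 i).natDegree := by
      rw [← hα0 i, Polynomial.natDegree_map]
    rw [h1]
    exact Polynomial.eval₂_eq_sum_range _ _
  have hcK : ∀ i, ∀ k ∈ Finset.range ((α i).natDegree + 1),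
      ((inc ((α0 i).coeff k) : K) : Qb) = (α i).coeff k := by
    intro i k _
    rw [hinc]
    conv_rhs => rw [← hα0 i, Polynomial.coeff_map]
    rfl
  have hht : ∀ x : K, logHeight₁ x = NumberField.absLogHeight₁ (x : Qb) * finrank ℚ K := by
    intro x
    have h1 := ht_eq (algebraMap K Qb) x
    have e : algebraMap K Qb x = (x : Qb) := rfl
    rw [e] at h1
    rw [h1, div_mul_cancel₀ _ hn.ne']
  have haKa : ∀ j, ((aK j : K) : Qb) = a j := fun _ => rfl
  have haK : Function.Injective aK := fun i j hij => ha0 (inc.injective hij)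
  have hsK : ∀ j, sK ≠ aK j := fun j h => hs j (congrArg (fun x : K => (x : Qb)) h)
  have hyK : ∀ i, yK i ≠ 0 := fun i h => hy i (congrArg (fun x : K => (x : Qb)) h)
  have hgK : ∀ j, gK j ≠ 0 := fun j h => hg j (congrArg (fun x : K => (x : Qb)) h)
  have hrelK : HasRelations (crd ν aK gK sK yK) (t + 1) := by
    obtain ⟨u, hu, hr⟩ := hrel
    refine ⟨u, hu, fun k => ?_⟩
    apply (algebraMap K Qb).injective
    rw [map_prod, map_one, ← hr k]
    apply Finset.prod_congr rfl
    intro j _
    rw [map_zpow₀]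
    congr 1
    rcases j with j | j
    · exact map_bc (algebraMap K Qb) ν aK gK sK j
    · rfl
  -- the height of `s`
  have hs1 : logHeight₁ sK ≤ B₁ * finrank ℚ K := by
    obtain ⟨i, hi⟩ := height_s (m := t) hr ν W hW hWb aK haK gK sK yK hgK hsK hyK hrelK
    have h1 : ∑ j ∈ Finset.univ.erase i,
        (finrank ℚ K * log 2 + 2 * logHeight₁ (aK i - aK j)) ≤ H₁ * finrank ℚ K := by
      have e1 : ∀ j, finrank ℚ K * log 2 + 2 * logHeight₁ (aK i - aK j) =
          (log 2 + 2 * NumberField.absLogHeight₁ (a i - a j)) * finrank ℚ K := by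
        intro j
        rw [hht]
        have : ((aK i - aK j : K) : Qb) = a i - a j := rfl
        rw [this]; ring
      simp only [e1]
      rw [← Finset.sum_mul]
      apply mul_le_mul_of_nonneg_right _ hn.le
      calc ∑ j ∈ Finset.univ.erase i, (log 2 + 2 * NumberField.absLogHeight₁ (a i - a j))
          ≤ ∑ j, (log 2 + 2 * NumberField.absLogHeight₁ (a i - a j)) := by
            apply Finset.sum_le_sum_of_subset_of_nonneg (Finset.erase_subset _ _)
            intro j _ _
            have := ht_nonneg (a i - a j); positivity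
        _ ≤ H₁ := by
            apply Finset.single_le_sum (f := fun i => ∑ j, (log 2 +
              2 * NumberField.absLogHeight₁ (a i - a j)))
            · intro i _
              apply Finset.sum_nonneg
              intro j _
              have := ht_nonneg (a i - a j); positivity
            · exact Finset.mem_univ i
    have h2 : logHeight₁ sK ≤ totalWeight K * log 2 + logHeight₁ (sK - aK i) +
        logHeight₁ (aK i) := by
      have := logHeight₁_add_le (sK - aK i) (aK i)
      rwa [sub_add_cancel] at this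
    have h3 : logHeight₁ (aK i) ≤ H₂ * finrank ℚ K := by
      rw [hht]
      apply mul_le_mul_of_nonneg_right _ hn.le
      exact Finset.single_le_sum (f := fun j => NumberField.absLogHeight₁ (a j))
        (fun j _ => ht_nonneg (a j)) (Finset.mem_univ i)
    have h4 : ∑ j, 2 * logHeight₁ (gK j) = 2 * H₃ * finrank ℚ K := by
      rw [← Finset.mul_sum, hH₃, mul_assoc, Finset.sum_mul]
      congr 1
      apply Finset.sum_congr rfl
      intro j _
      rw [hht]
      rfl
    rw [h4] at hi
    rw [NumberField.totalWeight_eq_finrank] at h2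
    rw [hB₁]
    nlinarith
  have hs2 : ∀ j, logHeight₁ (sK - aK j) ≤ B₄ * finrank ℚ K := by
    intro j
    have h2 := logHeight₁_sub_le sK (aK j)
    have h3 : logHeight₁ (aK j) ≤ H₂ * finrank ℚ K := by
      rw [hht]
      apply mul_le_mul_of_nonneg_right _ hn.le
      exact Finset.single_le_sum (f := fun j => NumberField.absLogHeight₁ (a j))
        (fun j _ => ht_nonneg (a j)) (Finset.mem_univ j)
    rw [NumberField.totalWeight_eq_finrank] at h2
    rw [hB₄]
    linarith
  have hx2 : ∀ j, logHeight₁ (bc ν aK gK sK j) ≤ (H₃ + V * B₄) * finrank ℚ K := by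
    intro j
    have h1 := height_bc ν aK gK sK (B₄ * finrank ℚ K) (H₃ * finrank ℚ K) (by positivity) hs2
      (fun j => by
        rw [hht]
        apply mul_le_mul_of_nonneg_right _ hn.le
        exact Finset.single_le_sum (f := fun j => NumberField.absLogHeight₁ (g j))
          (fun j _ => ht_nonneg (g j)) (Finset.mem_univ j)) j
    refine h1.trans (le_of_eq ?_)
    rw [hV]
    ring
  have hA2 : ∀ i, logHeight₁ (A i) ≤ polBound (α i) B₁ * finrank ℚ K := fun i => by
    rw [hAsum i]
    exact height_pol (α i) B₁ K (fun k => inc ((α0 i).coeff k)) (hcK i) sK hs1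
  have hHV : 0 ≤ H₃ + V * B₄ := by positivity
  have hle1 : B₁ ≤ B₂ := by rw [hB₂, hB₄]; linarith
  have hle2 : B₄ ≤ B₂ := by rw [hB₂]; linarith
  have hle4 : H₃ + V * B₄ ≤ B₂ := by rw [hB₂]; linarith
  have hle3 : ∀ i, polBound (α i) B₁ ≤ B₂ := by
    intro i
    have := Finset.single_le_sum (f := fun i => polBound (α i) B₁) (fun i _ => hp0 i)
      (Finset.mem_univ i)
    rw [hB₂]; linarith
  obtain φ0 : K →+* ℂ := Classical.choice inferInstance
  -- the sums
  have hmoK : ∀ k, algebraMap K Qb (mo yK (e k)) = mo y (e k) := by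
    intro k
    rw [mo, map_prod]
    apply Finset.prod_congr rfl
    intro i _
    rw [map_pow]
    rfl
  have hpart : ∀ I : Finset (Fin (m + 1)), algebraMap K Qb (∑ k ∈ I, A k * mon e yK k) =
      (mo y (e 0))⁻¹ * ∑ k ∈ I, (α k).eval s * mo y (e k) := by
    intro I
    rw [map_sum, Finset.mul_sum]
    apply Finset.sum_congr rfl
    intro k _
    have e1 : algebraMap K Qb (A k) = (α k).eval s := hA k
    rw [map_mul, e1, monom_eq' e yK hyK, map_mul, map_inv₀, hmoK, hmoK]
    ring
  have hsumK : ∑ k, A k * mon e yK k = 0 := by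
    apply (algebraMap K Qb).injective
    rw [hpart, hVan, mul_zero, map_zero]
  have hnvK : ∀ I : Finset (Fin (m + 1)), I.Nonempty → I ≠ Finset.univ →
      ∑ k ∈ I, A k * mon e yK k ≠ 0 := by
    intro I hI hIu h0
    have h1 := hpart I
    rw [h0, map_zero] at h1
    rcases mul_eq_zero.mp h1.symm with h2 | h2
    · exact inv_ne_zero (mo_ne' y hy _) h2
    · exact hnv I hI hIu h2
  have hcj : ∀ σ : K ≃ₐ[ℚ] K,
      emb a0 g0 ((φ0.comp (σ : K →+* K)).comp inc) = cj φ0 aK gK σ := fun σ => rfl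
  have hP : IsPt ν 𝒜 B₂ m φ0 sK aK gK A (mon e yK) :=
    ⟨fun σ => by
        rw [h𝒜, Finset.mem_image]
        exact ⟨_, Finset.mem_univ _, hcj σ⟩, hgK, hsK,
      hs1.trans (mul_le_mul_of_nonneg_right hle1 hn.le),
      fun j => (hs2 j).trans (mul_le_mul_of_nonneg_right hle2 hn.le),
      fun j => (hx2 j).trans (mul_le_mul_of_nonneg_right hle4 hn.le),
      fun i => (hA2 i).trans (mul_le_mul_of_nonneg_right (hle3 i) hn.le),
      fun k => mon_ne e yK hyK k, hsumK, hnvK⟩
  have hminp : minpoly ℚ s = minpoly ℚ sK := by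
    have := minpoly.algebraMap_eq (algebraMap K Qb).injective sK (A := ℚ)
    rw [← this]
    rfl
  have hhts : NumberField.absLogHeight₁ s ≤ B₂ := by
    have := hht sK
    have e2 : ((sK : K) : Qb) = s := rfl
    rw [e2] at this
    rw [this] at hs1
    exact (le_of_mul_le_mul_right hs1 hn).trans hle1
  rcases hmain K φ0 sK aK gK A yK hyK hP hrelK with h | ⟨hyh, -⟩
  · left; left
    refine ⟨by rw [hminp]; exact h.le, ?_⟩
    have e : Pool.Agent.Helper259.AbsHt.absLogHeight ![1, s] = NumberField.absLogHeight₁ s :=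
      (Pool.Agent.H58P.absLogHeight₁_eq s).symm
    rw [e]
    exact hhts
  · right
    refine ⟨hhts.trans (by linarith), fun i => ?_⟩
    have h1 := hyh i
    rw [hht] at h1
    have e2 : ((yK i : K) : Qb) = y i := rfl
    rw [e2] at h1
    exact (le_of_mul_le_mul_right h1 hn).trans (by linarith)

end Pool.Agent.Y740.G
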