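import Mathlib
import Pool.Agent.Y740.G.Height
import Pool.Agent.Y740.G.Main

set_option autoImplicit false

/-!
# Bounded height with integral hypotheses
-/

namespace Pool.Agent.Y740.G

open Real NumberField Height Module Polynomial Pool.Agent.Y740 Pool.Agent.Y740.S

variable {p r q : ℕ}

lemma finrank_pos' (K : IntermediateField ℚ Qb) [NumberField K] : (0 : ℝ) < finrank ℚ K :=
  finrank_pos_real (K := K)

/-- the height of a product of powers -/
lemma ht_prod_zpow {ι : Type} [Fintype ι] (z : ι → Qb) (u : ι → ℤ) :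
    NumberField.absLogHeight₁ (∏ l, z l ^ u l) ≤
      ∑ l, ((u l).natAbs : ℝ) * NumberField.absLogHeight₁ (z l) := by
  obtain ⟨K, hK, hG, hmem⟩ := exists_galois (Set.range z) (Set.finite_range z)
  have hn := finrank_pos' K
  let zK : ι → K := fun l => ⟨z l, hmem _ ⟨l, rfl⟩⟩
  have e1 : ∏ l, z l ^ u l = algebraMap K Qb (∏ l, zK l ^ u l) := by
    rw [map_prod]
    apply Finset.prod_congr rfl
    intro l _
    rw [map_zpow₀]
    rfl
  have e2 : ∀ l, NumberField.absLogHeight₁ (z l) = logHeight₁ (zK l) / finrank ℚ K := fun l =>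
    ht_eq (algebraMap K Qb) (zK l)
  rw [e1, ht_eq (algebraMap K Qb), div_le_iff₀ hn, Finset.sum_mul]
  refine (logHeight₁_prod_le _ _).trans (le_of_eq ?_)
  apply Finset.sum_congr rfl
  intro l _
  rw [logHeight₁_zpow, e2, mul_assoc, div_mul_cancel₀ _ hn.ne']

/-- the height of a power -/
lemma ht_zpow (x : Qb) (n : ℤ) :
    NumberField.absLogHeight₁ (x ^ n) = (n.natAbs : ℝ) * NumberField.absLogHeight₁ x := by
  obtain ⟨K, hK, hG, hmem⟩ := exists_galois {x} (Set.finite_singleton x)
  let xK : K := ⟨x, hmem _ rfl⟩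
  have e1 : x ^ n = algebraMap K Qb (xK ^ n) := by
    rw [map_zpow₀]
    rfl
  have e2 : NumberField.absLogHeight₁ x = logHeight₁ xK / finrank ℚ K :=
    ht_eq (algebraMap K Qb) xK
  rw [e1, ht_eq (algebraMap K Qb), logHeight₁_zpow, e2, mul_div_assoc]

/-- the height of a product -/
lemma ht_mul (x y : Qb) :
    NumberField.absLogHeight₁ (x * y) ≤
      NumberField.absLogHeight₁ x + NumberField.absLogHeight₁ y := by
  have h := ht_prod_zpow ![x, y] ![1, 1]
  simpa using h

/-- the height of a difference -/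
lemma ht_sub (x y : Qb) :
    NumberField.absLogHeight₁ (x - y) ≤
      log 2 + NumberField.absLogHeight₁ x + NumberField.absLogHeight₁ y := by
  obtain ⟨K, hK, hG, hmem⟩ := exists_galois {x, y} (by simp)
  have hn := finrank_pos' K
  let xK : K := ⟨x, hmem _ (by simp)⟩
  let yK : K := ⟨y, hmem _ (by simp)⟩
  have e1 : x - y = algebraMap K Qb (xK - yK) := rfl
  have e2 : NumberField.absLogHeight₁ x = logHeight₁ xK / finrank ℚ K :=
    ht_eq (algebraMap K Qb) xK
  have e3 : NumberField.absLogHeight₁ y = logHeight₁ yK / finrank ℚ K :=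
    ht_eq (algebraMap K Qb) yK
  have h := logHeight₁_sub_le xK yK
  rw [NumberField.totalWeight_eq_finrank] at h
  rw [e1, ht_eq (algebraMap K Qb), e2, e3, div_le_iff₀ hn]
  have e4 : (log 2 + logHeight₁ xK / finrank ℚ K + logHeight₁ yK / finrank ℚ K) * finrank ℚ K =
      finrank ℚ K * log 2 + logHeight₁ xK + logHeight₁ yK := by
    field_simp
  rw [e4]
  linarith

/-- the coordinates are bounded if their images under an isogeny are -/
lemma ht_isog {ι : Type} [Fintype ι] [DecidableEq ι] (x : ι → Qb) (hx : ∀ l, x l ≠ 0)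
    (E : Matrix ι ι ℤ) (hE : E.det ≠ 0) (B : ℝ) (hB : 0 ≤ B)
    (h : ∀ j, NumberField.absLogHeight₁ (∏ l, x l ^ E j l) ≤ B) (l : ι) :
    NumberField.absLogHeight₁ (x l) ≤ ∑ l, ∑ j, ((E.adjugate l j).natAbs : ℝ) * B := by
  have h1 : ∏ j, (∏ l', x l' ^ E j l') ^ E.adjugate l j = x l ^ E.det := by
    have h2 : ∏ j, (∏ l', x l' ^ E j l') ^ E.adjugate l j =
        ∏ l', x l' ^ (E.adjugate * E) l l' := by
      simp only [← Finset.prod_zpow, ← zpow_mul]
      rw [Finset.prod_comm]
      apply Finset.prod_congr rfl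
      intro l' _
      rw [Matrix.mul_apply, zpow_sum_eq _ (hx l')]
      apply Finset.prod_congr rfl
      intro j _
      rw [mul_comm]
    rw [h2, Matrix.adjugate_mul, Finset.prod_eq_single l]
    · rw [Matrix.smul_apply, Matrix.one_apply_eq, smul_eq_mul, mul_one]
    · intro l' _ hl'
      rw [Matrix.smul_apply, Matrix.one_apply_ne hl'.symm, smul_zero, zpow_zero]
    · intro h'
      exact absurd (Finset.mem_univ l) h'
  have h3 := ht_prod_zpow (fun j => ∏ l', x l' ^ E j l') (E.adjugate l)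
  rw [h1, ht_zpow] at h3
  have h4 : (1 : ℝ) ≤ (E.det.natAbs : ℝ) := by
    have : 0 < E.det.natAbs := Int.natAbs_pos.mpr hE
    exact_mod_cast this
  have h5 := ht_nonneg (x l)
  have h6 : ∑ j, ((E.adjugate l j).natAbs : ℝ) *
      NumberField.absLogHeight₁ (∏ l', x l' ^ E j l') ≤
      ∑ j, ((E.adjugate l j).natAbs : ℝ) * B :=
    Finset.sum_le_sum fun j _ => mul_le_mul_of_nonneg_left (h j) (Nat.cast_nonneg _)
  have h7 : ∑ j, ((E.adjugate l j).natAbs : ℝ) * B ≤
      ∑ l, ∑ j, ((E.adjugate l j).natAbs : ℝ) * B :=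
    Finset.single_le_sum (f := fun l => ∑ j, ((E.adjugate l j).natAbs : ℝ) * B)
      (fun l _ => Finset.sum_nonneg fun j _ => mul_nonneg (Nat.cast_nonneg _) hB)
      (Finset.mem_univ l)
  nlinarith

/-- the theorem -/
theorem heightC (p r t m : ℕ) (hp : 0 < p) (ν : Fin p → Fin r → ℤ) (hν : LinearIndependent ℤ ν)
    (a : Fin r → Qb) (ha : Function.Injective a) (g : Fin p → Qb) (hg : ∀ j, g j ≠ 0)
    (hS : Scattered ν a g)
    (α : Fin (m + 1) → Qb[X]) (hα : ∀ k, α k ≠ 0) (e : Fin (m + 1) → Fin t → ℕ)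
    (hspan : LinearIndependent ℤ (fun (i : Fin t) (k : Fin (m + 1)) =>
      (e k i : ℤ) - (e 0 i : ℤ)))
    (E : Matrix (Fin p ⊕ Fin t) (Fin p ⊕ Fin t) ℤ) (hE : E.det ≠ 0) :
    ∃ (S : Set Qb) (B : ℝ), S.Finite ∧
      ∀ (s : Qb) (x : Fin p ⊕ Fin t → Qb), (∀ l, x l ≠ 0) →
        (∀ j : Fin p, ∏ l, x l ^ E (Sum.inl j) l = g j * ∏ i, (s - a i) ^ ν j i) →
        ∑ k, (α k).eval s * ∏ i, (∏ l, x l ^ E (Sum.inr i) l) ^ e k i = 0 →
        (∀ I : Finset (Fin (m + 1)), 2 ≤ I.card → I.card < m →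
          ∑ k ∈ I, (α k).eval s * ∏ i, (∏ l, x l ^ E (Sum.inr i) l) ^ e k i ≠ 0) →
        (∃ u : Fin (t + 1) → (Fin p ⊕ Fin t) → ℤ, LinearIndependent ℤ u ∧
          ∀ k, ∏ l, x l ^ u k l = 1) →
        s ∈ S ∨ ∀ l, NumberField.absLogHeight₁ (x l) ≤ B := by
  classical
  -- `0 < r`
  have hr : 0 < r := by
    rcases Nat.eq_zero_or_pos r with h0 | h0
    · exfalso
      subst h0
      exact hν.ne_zero ⟨0, hp⟩ (funext fun i => i.elim0)
    · exact h0
  have hνR : ∀ b : Fin p → ℝ, (fun i => ∑ j, b j * (ν j i : ℝ)) = 0 → b = 0 := by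
    intro b hb
    have h1 := Fintype.linearIndependent_iff.mp (real_indep ν hν) b (by
      rw [← hb]
      funext i
      simp only [Finset.sum_apply, Pi.smul_apply, smul_eq_mul])
    exact funext h1
  have hSP : SP e := by
    intro t' ht
    have h1 := Fintype.linearIndependent_iff.mp (real_indep _ hspan) t' (by
      funext k
      simp only [Finset.sum_apply, Pi.smul_apply, smul_eq_mul, Pi.zero_apply]
      rw [← ht k]
      apply Finset.sum_congr rfl
      intro i _
      push_cast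
      ring)
    exact funext h1
  obtain ⟨S, B, hfin, hB⟩ := heightA hr ν hνR a ha g hg (fun Ψ => hS.nb hr hg Ψ) m α hα e hSP
  -- the bounds
  set G : ℝ := ∑ j, NumberField.absLogHeight₁ (g j) with hG
  set A : ℝ := ∑ i, NumberField.absLogHeight₁ (a i) with hA
  set V : ℝ := ∑ j, ∑ i, ((ν j i).natAbs : ℝ) with hV
  have hG0 : 0 ≤ G := Finset.sum_nonneg fun j _ => ht_nonneg (g j)
  have hA0 : 0 ≤ A := Finset.sum_nonneg fun j _ => ht_nonneg (a j)
  have hV0 : 0 ≤ V := Finset.sum_nonneg fun j _ => Finset.sum_nonneg fun i _ => Nat.cast_nonneg _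
  have hl2 : 0 < log 2 := Real.log_pos (by norm_num)
  set B₁ : ℝ := |B| + (G + V * (log 2 + |B| + A)) with hB₁
  have hB₁0 : 0 ≤ B₁ := by positivity
  refine ⟨S ∪ Set.range a, ∑ l, ∑ j, ((E.adjugate l j).natAbs : ℝ) * B₁,
    hfin.union (Set.finite_range a), fun s x hx hj hV' hnv hrel => ?_⟩
  by_cases hs : s ∈ Set.range a
  · left; right; exact hs
  have hs' : ∀ i, s ≠ a i := fun i h => hs ⟨i, h.symm⟩
  have hz : ∀ k, ∏ l, x l ^ E k l ≠ 0 := fun k =>
    Finset.prod_ne_zero_iff.mpr fun l _ => zpow_ne_zero _ (hx l)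
  have h1 := HasRelations.isog x hx E hE (t + 1) hrel
  have h2 : (fun k => ∏ l, x l ^ E k l) =
      crd ν a g s (fun i => ∏ l, x l ^ E (Sum.inr i) l) := by
    funext k
    rcases k with j | i
    · exact hj j
    · rfl
  rw [h2] at h1
  rcases hB s _ (fun i => hz (Sum.inr i)) hV' hnv h1 with h3 | ⟨h3, h4⟩
  · left; left; exact h3
  right
  refine ht_isog x hx E hE B₁ hB₁0 ?_
  rintro (j | i)
  · rw [hj j]
    refine (ht_mul _ _).trans ?_
    have h5 : NumberField.absLogHeight₁ (g j) ≤ G :=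
      Finset.single_le_sum (f := fun j => NumberField.absLogHeight₁ (g j))
        (fun j _ => ht_nonneg (g j)) (Finset.mem_univ j)
    have h6 : NumberField.absLogHeight₁ (∏ i, (s - a i) ^ ν j i) ≤ V * (log 2 + |B| + A) := by
      refine (ht_prod_zpow _ _).trans ?_
      calc ∑ i, ((ν j i).natAbs : ℝ) * NumberField.absLogHeight₁ (s - a i)
          ≤ ∑ i, ((ν j i).natAbs : ℝ) * (log 2 + |B| + A) := by
            apply Finset.sum_le_sum
            intro i _
            apply mul_le_mul_of_nonneg_left _ (Nat.cast_nonneg _)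
            have h7 := ht_sub s (a i)
            have h8 : NumberField.absLogHeight₁ (a i) ≤ A :=
              Finset.single_le_sum (f := fun i => NumberField.absLogHeight₁ (a i))
                (fun i _ => ht_nonneg (a i)) (Finset.mem_univ i)
            have h9 := le_abs_self B
            linarith
        _ = (∑ i, ((ν j i).natAbs : ℝ)) * (log 2 + |B| + A) := by rw [Finset.sum_mul]
        _ ≤ _ := by
            apply mul_le_mul_of_nonneg_right _ (by positivity)
            exact Finset.single_le_sum (f := fun j => ∑ i, ((ν j i).natAbs : ℝ))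
              (fun j _ => Finset.sum_nonneg fun i _ => Nat.cast_nonneg _) (Finset.mem_univ j)
    have h10 := abs_nonneg B
    rw [hB₁]
    linarith
  · refine (h4 i).trans ?_
    have h9 := le_abs_self B
    have h10 : 0 ≤ G + V * (log 2 + |B| + A) := by positivity
    rw [hB₁]
    linarith

end Pool.Agent.Y740.G
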